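import Pool.Agent.KT3.StmtsA
import Pool.Agent.Helper13_NBT.IBF
import Pool.Agent.Helper38_NBT.TBF
import Pool.Agent.Helper37_PFS.FZM

/-!
# KT3 squad, row STX: pair boxes
-/

set_option autoImplicit false

open Matrix Filter Topology

namespace Pool.Agent.KT3.H71

open Pool.Agent.PFS Pool.Agent.PFJ Pool.Agent.NBT Pool.Agent.KT3

theorem stx : StxStmt := by
  intro n C Γ K H w hw i j hij L hL
  have h : CC C Γ := H.toCC
  have hC : PCone C := h.toPCone
  have hw0 := hw
  obtain ⟨hpes, hlam⟩ := hw
  have hwc : ∀ i, w i ∈ closure C := fun i => hpes.cl i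
  obtain ⟨hU, hLB, hbox, -⟩ := (Pool.Agent.NBT.H13.ibf n C hC K w hpes).1 {i, j} L hL
  have hib2 := (Pool.Agent.NBT.H13.ibf n C hC K w hpes).2
  have hwi : w i ∈ L := hL.mem i (by simp)
  have hwj : w j ∈ L := hL.mem j (by simp)
  have hfp : fS w {i, j} = w i + w j := fS_pair w hij
  have hR : fS w ({i, j} : Finset (Fin K))ᶜ ∈ closure C := fS_cl hC hwc _
  obtain ⟨R, hRdef⟩ : ∃ R, R = fS w ({i, j} : Finset (Fin K))ᶜ := ⟨_, rfl⟩
  rw [← hRdef] at hR
  have hsum : ∑ m, w m = fS w {i, j} + R := by rw [hRdef, fS_add_compl]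
  have unf := fun (y : V n) (hy : Unt C L y) => Pool.Agent.PFJ.H76.unf n C hC L y hy
  -- strictness
  have hstr : ∀ x ∈ L, ∀ y ∈ L, x ∈ closure C → y ∈ closure C → Ind2 x y →
      Unt C L (x + y) := by
    intro x hx y hy hxc hyc hxy
    rcases Nat.lt_or_ge (Module.finrank ℝ L) 3 with h3 | h3
    · have hsp : Submodule.span ℝ (w '' (({i, j} : Finset (Fin K)) : Set (Fin K))) ≤ L := by
        rw [Submodule.span_le]
        rintro _ ⟨m, hm, rfl⟩
        simp only [Finset.coe_insert, Finset.coe_singleton, Set.mem_insert_iff,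
          Set.mem_singleton_iff] at hm
        rcases hm with rfl | rfl
        · exact hwi
        · exact hwj
      have e := Submodule.eq_of_le_of_finrank_le hsp (by
        rw [(hib2 {i, j}).2, Finset.card_pair hij]; omega)
      have hrep : ∀ x ∈ L, ∃ a b : ℝ, x = a • w i + b • w j := by
        intro x hx
        rw [← e, Finset.coe_pair, Set.image_pair, Submodule.mem_span_pair] at hx
        obtain ⟨a, b, hab⟩ := hx
        exact ⟨a, b, hab.symm⟩
      obtain ⟨a, b, hab⟩ := hrep x hx
      obtain ⟨a', b', hab'⟩ := hrep y hy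
      have nn : ∀ a b : ℝ, a • w i + b • w j ∈ closure C → 0 ≤ a ∧ 0 ≤ b := by
        intro a b hm
        rw [Pool.Agent.NBT.H38.sum_pair_coef w hij] at hm
        have h1 := nng n C hC (Fin K) w hpes _ hm
        have h2 := h1 i
        have h4 := h1 j
        rw [if_pos rfl] at h2
        rw [if_neg hij.symm, if_pos rfl] at h4
        exact ⟨h2, h4⟩
      obtain ⟨ha, hb⟩ := nn a b (hab ▸ hxc)
      obtain ⟨ha', hb'⟩ := nn a' b' (hab' ▸ hyc)
      have hpa : 0 < a + a' := by
        rcases (add_nonneg ha ha').lt_or_eq with h4 | h4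
        · exact h4
        · exfalso
          have h5 : a = 0 := by linarith
          have h6 : a' = 0 := by linarith
          subst h5 h6
          have h7 := hxy b' (-b) (by rw [hab, hab']; module)
          have h8 : b = 0 := by linarith [h7.2]
          have h9 := hxy 1 0 (by rw [hab, h8]; module)
          exact one_ne_zero h9.1
      have hpb : 0 < b + b' := by
        rcases (add_nonneg hb hb').lt_or_eq with h4 | h4
        · exact h4
        · exfalso
          have h5 : b = 0 := by linarith
          have h6 : b' = 0 := by linarith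
          subst h5 h6
          have h7 := hxy a' (-a) (by rw [hab, hab']; module)
          have h8 : a = 0 := by linarith [h7.2]
          have h9 := hxy 1 0 (by rw [hab, h8]; module)
          exact one_ne_zero h9.1
      obtain ⟨ε, hε⟩ : ∃ ε, ε = min (a + a') (b + b') := ⟨_, rfl⟩
      have hε0 : 0 < ε := by rw [hε]; exact lt_min hpa hpb
      have hu := (unf _ hU).1 ε hε0
      refine (unf _ hu).2.1 (x + y) (Submodule.add_mem _ hx hy) ?_
      have e : x + y - ε • fS w {i, j} = (a + a' - ε) • w i + (b + b' - ε) • w j := by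
        rw [hfp, hab, hab']; module
      rw [e]
      exact hC.cl_add
        (hC.cl_smul (hwc i) (by rw [hε]; linarith [min_le_left (a + a') (b + b')]))
        (hC.cl_smul (hwc j) (by rw [hε]; linarith [min_le_right (a + a') (b + b')]))
    · refine bxt n C Γ h K H.three H.maxc w hw0 i j hij L ⟨hwi, hwj, fun v hv hv2 => ?_⟩ h3
        x hx y hy hxc hyc hxy
      rw [Pool.Agent.NBT.H38.rst_eq] at hv2
      exact hL.box v hv hv2
  -- the vertices are nonunits
  have hnu : ∀ a b : Fin K, a ≠ b → w b ∈ L → ¬ Unt C L (w a) := by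
    intro a b hab hb hu
    obtain ⟨M, hM, h1⟩ := hu.2.2 (w b) hb
    have e : M • w a - w b = M • w a + (-1 : ℝ) • w b := by module
    rw [e, Pool.Agent.NBT.H38.sum_pair_coef w hab] at h1
    have h2 := nng n C hC (Fin K) w hpes _ h1 b
    rw [if_neg hab.symm, if_pos rfl] at h2
    linarith
  have hni : ¬ Unt C L (w i) := hnu i j hij hwj
  have hnj : ¬ Unt C L (w j) := hnu j i hij.symm hwi
  -- a third index
  obtain ⟨l0, hl0⟩ : ∃ l : Fin K, l ∉ ({i, j} : Finset (Fin K)) := by
    by_contra hcon
    push Not at hcon
    have h1 : (Finset.univ : Finset (Fin K)) ⊆ {i, j} := fun m _ => hcon m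
    have h2 := Finset.card_le_card h1
    rw [Finset.card_univ, Fintype.card_fin] at h2
    have h3 := Finset.card_le_two (a := i) (b := j)
    have := H.three
    omega
  have hHul := h.hul
  have hfC : fS w {i, j} ∉ C := by
    have h1 := hpes.bd (fun m => if m ∈ ({i, j} : Finset (Fin K)) then (1 : ℝ) else 0)
      (fun m => by split_ifs <;> norm_num) ⟨l0, by rw [if_neg hl0]⟩
    intro h2
    apply h1
    have e : (∑ m, (if m ∈ ({i, j} : Finset (Fin K)) then (1 : ℝ) else 0) • w m)
        = fS w {i, j} := by
      simp only [ite_smul, one_smul, zero_smul]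
      rw [Finset.sum_ite_mem, Finset.univ_inter]
      rfl
    rw [e]
    exact h2
  have hf0 : fS w {i, j} ≠ 0 := by
    intro h0
    have h1 : w i = -(w j) := by
      rw [hfp] at h0
      exact eq_neg_of_add_eq_zero_left h0
    have h2 := hC.salient (w i) (hwc i) (by rw [h1, neg_neg]; exact hwc j)
    exact hHul.lamNe _ (hlam i) h2
  have hfH : fS w {i, j} ∈ Hull C Γ := by
    rw [hfp]
    exact hHul.add _ (hHul.lamHull _ (hlam i)) _ (hHul.lamHull _ (hlam j))
  have hfL : fS w {i, j} ∈ LamC C Γ :=
    Pool.Agent.PFS.H37.cloF n C Γ h (fun _ => fS w {i, j}) (fS w {i, j}) (fun _ => hfH)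
      tendsto_const_nhds hfC hf0
  have hlamL : ∀ x ∈ L, x ∈ closure C → x ≠ 0 → x ∈ LamC C Γ := by
    intro x hx hxc hx0
    obtain ⟨M, hM, h1⟩ := hU.2.2 x hx
    have h2 : fS w {i, j} - M⁻¹ • x ∈ closure C := by
      have h3 := hC.cl_smul h1 (inv_pos.2 hM).le
      rwa [smul_sub, smul_smul, inv_mul_cancel₀ hM.ne', one_smul] at h3
    have h3 := Pool.Agent.PFS.H37.flmF n C Γ h _ hfL (M⁻¹ • x)
      (hC.cl_smul hxc (inv_pos.2 hM).le) (smul_ne_zero (inv_pos.2 hM).ne' hx0) h2
    have h4 := hHul.lamSmul _ h3 M hM
    rwa [smul_smul, mul_inv_cancel₀ hM.ne', one_smul] at h4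
  -- change of the vertices
  have hmain : ∀ x ∈ L, ∀ y ∈ L, x ∈ closure C → y ∈ closure C → Ind2 x y → ¬ Unt C L x →
      ¬ Unt C L y → Unt C L (x + y) ∧
      IsPES C Γ (Function.update (Function.update w i x) j y) ∧
      IB C (Function.update (Function.update w i x) j y) {i, j} L := by
    intro x hx y hy hxc hyc hxy hxn hyn
    have hxyU := hstr x hx y hy hxc hyc hxy
    have hx0 : x ≠ 0 := by
      rintro rfl
      exact one_ne_zero (hxy 1 0 (by simp)).1
    have hy0 : y ≠ 0 := by
      rintro rfl
      exact one_ne_zero (hxy 0 1 (by simp)).2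
    obtain ⟨w', hw'⟩ : ∃ w' : Fin K → V n, w' = Function.update (Function.update w i x) j y :=
      ⟨_, rfl⟩
    rw [← hw']
    have ej : w' j = y := by rw [hw', Function.update_self]
    have ei : w' i = x := by rw [hw', Function.update_of_ne hij, Function.update_self]
    have eo : ∀ l, l ≠ i → l ≠ j → w' l = w l := fun l h1 h2 => by
      rw [hw', Function.update_of_ne h2, Function.update_of_ne h1]
    have eR : fS w' ({i, j} : Finset (Fin K))ᶜ = R := by
      rw [hw', fS_update _ _ _ (by simp), fS_update _ _ _ (by simp), hRdef]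
    have eS : ∑ m, w' m = x + y + R := by
      rw [← fS_add_compl w' {i, j}, eR, fS_pair w' hij, ei, ej]
    have hw'c : ∀ l, w' l ∈ closure C := by
      intro l
      by_cases h1 : l = i
      · rw [h1, ei]; exact hxc
      · by_cases h2 : l = j
        · rw [h2, ej]; exact hyc
        · rw [eo l h1 h2]; exact hwc l
    have hSC : x + y + R ∈ C := by
      obtain ⟨M, hM, h1⟩ := hxyU.2.2 _ hU.1
      rw [← hC.smul_iff (t := M + 1) (by linarith)]
      refine hC.mem_of_le hpes.sum_mem ?_
      have e : (M + 1) • (x + y + R) - ∑ m, w m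
          = (M • (x + y) - fS w {i, j}) + (x + y) + M • R := by
        rw [hsum]; module
      rw [e]
      exact hC.cl_add (hC.cl_add h1 (hC.cl_add hxc hyc)) (hC.cl_smul hR hM.le)
    have key : ∀ u ∈ L, u ∈ closure C → ¬ Unt C L u → u + R ∉ C := by
      intro u hu huc hun hcon
      obtain ⟨M, hM, h1⟩ := hC.absorb hcon (fS w {i, j})
      apply hun
      have h2 := hC.cl_smul (subset_closure h1) (inv_pos.2 hM).le
      have e : M⁻¹ • (M • (u + R) - fS w {i, j}) = (u - M⁻¹ • fS w {i, j}) + R := by
        rw [smul_sub, smul_smul, inv_mul_cancel₀ hM.ne', one_smul]; abel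
      rw [e, hRdef] at h2
      have h3 := hL.box _ (Submodule.sub_mem _ hu (Submodule.smul_mem _ _ hU.1)) h2
      exact (unf _ ((unf _ hU).1 M⁻¹ (inv_pos.2 hM))).2.1 u hu h3
    have eE : ∀ l, ∑ m ∈ Finset.univ.erase l, w' m = ∑ m, w' m - w' l := by
      intro l
      rw [← Finset.add_sum_erase Finset.univ w' (Finset.mem_univ l), add_sub_cancel_left]
    have hpes' : PES C w' := by
      refine Pool.Agent.PFS.H60.crt n C hC (Fin K) w' hw'c (by rw [eS]; exact hSC) ?_
      intro l
      rw [eE l, eS]
      by_cases h1 : l = i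
      · rw [h1, ei]
        have e : x + y + R - x = y + R := by abel
        rw [e]
        exact key y hy hyc hyn
      · by_cases h2 : l = j
        · rw [h2, ej]
          have e : x + y + R - y = x + R := by abel
          rw [e]
          exact key x hx hxc hxn
        · rw [eo l h1 h2]
          intro hcon
          obtain ⟨M, hM, h3⟩ := hU.2.2 (x + y) (Submodule.add_mem _ hx hy)
          have h4 := hC.add_cl hcon h3
          have e : x + y + R - w l + (M • fS w {i, j} - (x + y)) =
              ∑ m, (if m = l then (0 : ℝ) else if m ∈ ({i, j} : Finset (Fin K)) then M else 1)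
                • w m := by
            have e1 : ∀ m, (if m = l then (0 : ℝ) else
                if m ∈ ({i, j} : Finset (Fin K)) then M else 1) • w m
                = (if m ∈ ({i, j} : Finset (Fin K)) then M • w m else 0)
                  + (if m ∈ ({i, j} : Finset (Fin K))ᶜ then w m else 0)
                  - (if m = l then w m else 0) := by
              intro m
              by_cases hm : m = l
              · subst hm
                have hm2 : m ∉ ({i, j} : Finset (Fin K)) := by
                  simp only [Finset.mem_insert, Finset.mem_singleton, not_or]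
                  exact ⟨h1, h2⟩
                rw [if_pos rfl, if_neg hm2, if_pos (Finset.mem_compl.2 hm2), if_pos rfl]
                module
              · by_cases hm2 : m ∈ ({i, j} : Finset (Fin K))
                · rw [if_neg hm, if_pos hm2, if_pos hm2,
                    if_neg (fun h5 => (Finset.mem_compl.1 h5) hm2), if_neg hm]
                  module
                · rw [if_neg hm, if_neg hm2, if_neg hm2, if_pos (Finset.mem_compl.2 hm2),
                    if_neg hm]
                  module
            rw [Finset.sum_congr rfl fun m _ => e1 m, Finset.sum_sub_distrib,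
              Finset.sum_add_distrib, Finset.sum_ite_mem, Finset.sum_ite_mem, Finset.univ_inter,
              Finset.univ_inter, Finset.sum_ite_eq' Finset.univ l w, if_pos (Finset.mem_univ l),
              ← Finset.smul_sum, hRdef]
            unfold fS
            module
          rw [e] at h4
          refine hpes.bd _ (fun m => ?_) ⟨l, by rw [if_pos rfl]⟩ h4
          split_ifs
          · exact le_rfl
          · exact hM.le
          · norm_num
    refine ⟨hxyU, ⟨hpes', fun l => ?_⟩, ⟨fun m hm => ?_, fun v hv h1 => ?_⟩⟩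
    · by_cases h1 : l = i
      · rw [h1, ei]; exact hlamL x hx hxc hx0
      · by_cases h2 : l = j
        · rw [h2, ej]; exact hlamL y hy hyc hy0
        · rw [eo l h1 h2]; exact hlam l
    · simp only [Finset.mem_insert, Finset.mem_singleton] at hm
      rcases hm with rfl | rfl
      · rw [ei]; exact hx
      · rw [ej]; exact hy
    · rw [eR, hRdef] at h1
      exact hL.box v hv h1
  have h2K : 2 ≤ K := by have := H.three; omega
  refine ⟨hmain, ?_, hni, hnj⟩
  -- extremality
  intro e he hec hen
  have hwjE : Ext C (w j) := exv n C Γ h K h2K H.maxc w hw0 j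
  by_cases h1 : ∃ c : ℝ, e = c • w j
  · obtain ⟨c, rfl⟩ := h1
    intro y hy M hM
    obtain ⟨c', hc'⟩ := hwjE y hy (M * c) (by rw [← smul_smul]; exact hM)
    by_cases hc0 : c = 0
    · subst hc0
      rw [zero_smul, smul_zero, zero_sub] at hM
      have := hC.salient y hy hM
      exact ⟨0, by rw [this, zero_smul]⟩
    · exact ⟨c' * c⁻¹, by rw [hc', smul_smul, mul_assoc, inv_mul_cancel₀ hc0, mul_one]⟩
  · push Not at h1
    have hind : Ind2 e (w j) := ind2_of_ne (hHul.lamNe _ (hlam j)) h1
    obtain ⟨-, hp, -⟩ := hmain e he (w j) hwj hec (hwc j) hind hen hnj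
    have h3 := exv n C Γ h K h2K H.maxc _ hp i
    rwa [Function.update_of_ne hij, Function.update_self] at h3

end Pool.Agent.KT3.H71
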